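import Pool.Agent.H56.Spiral.Defs
import Pool.Agent.H56.Spiral.Count

/-!
# MP_ca213f_co, Q1

The square tiling admits an `n`-armed spiral marking for every positive integer `n`; one marking
consisting of a single arc does it for all `n`, and only the isometries depend on `n`.
-/

set_option autoImplicit false

namespace Pool.Agent.Results.MP_ca213f_co.AllArmNumbers

open Pool.Agent.H56.Spiral

/-- There is an arc `a` in the prototile such that for every `n ≥ 1` the isometries taking the
prototile onto the tiles can be chosen so that the transported markings form an `n`-armed spiral,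
with arms that are closed and wind infinitely often around the vertex `1` of the tiling. Moreover
the number of arms of this spiral is determined by its underlying set. -/
theorem result : ∃ a : Set ℂ, IsMarking {a} ∧
    ∀ n : ℕ, 0 < n → ∃ σ : ℤ × ℤ → ℂ ≃ᵢ ℂ, IsPlacement σ ∧
      (∃ A : Fin n → Set ℂ, IsSpiralWithArms n (marked {a} σ) A ∧
        ∀ k, SpiralsOutAround 1 (A k)) ∧
      ∀ (m : ℕ) (B : Fin m → Set ℂ), IsSpiralWithArms m (marked {a} σ) B → m = n := by
  refine ⟨arc0, isMarking_arc0, fun n hn => ⟨fun p => place (dirn n p) p, isPlacement_place n,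
    ⟨fun k => armSet n k, ⟨fun k => (armSet_curve hn k).2, armSet_disjoint hn,
      marked_eq_arms hn⟩, armSet_spirals hn⟩, ?_⟩⟩
  intro m B hB
  rw [marked_eq_arms hn] at hB
  exact count_arms hn hB

end Pool.Agent.Results.MP_ca213f_co.AllArmNumbers
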